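import Pool.Agent.Lib.MP_751085_ag.Final

/-! The local-global principle for degrees of zero-cycles on smooth hypersurfaces of degree `d` in
`n ≥ 4 d - 1` variables over global function fields of characteristic `p > d`. -/

namespace Pool.Agent.Results.MP_751085_ag.HypersurfaceZeroCycles

/-- The degrees of the zero-cycles on the projective hypersurface `f = 0` over `L`: the subgroup of
`ℤ` generated by the degrees `[L(P) : L]` of its closed points `P`, where the residue field of the
closed point under a geometric point `x` is generated by the ratios of the coordinates. -/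
def cycleDegrees {L : Type} [Field L] {n : ℕ} (f : MvPolynomial (Fin n) L) : AddSubgroup ℤ :=
  AddSubgroup.closure {m : ℤ | ∃ x : Fin n → AlgebraicClosure L, x ≠ 0 ∧
    MvPolynomial.aeval x f = 0 ∧
      m = Module.finrank L (IntermediateField.adjoin L {z | ∃ a b, z = x a / x b})}

/-- The canonical map from `K` to its completion `K_v`. -/
noncomputable def toCompletion {K : Type} [Field K]
    (v : Valuation K (WithZero (Multiplicative ℤ))) : K →+* v.Completion :=
  UniformSpace.Completion.coeRingHom.comp (WithVal.equiv v).symm.toRingHom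

theorem cycleDegrees_eq {L : Type} [Field L] {n d : ℕ} {f : MvPolynomial (Fin n) L}
    (hf : f.IsHomogeneous d) : cycleDegrees f = Pool.Agent.HZ.degs f := by
  have fin : ∀ x : Fin n → AlgebraicClosure L, FiniteDimensional L
      (IntermediateField.adjoin L {z | ∃ a b, z = x a / x b}) := fun x => by
    have : Finite {z | ∃ a b, z = x a / x b} :=
      ((Set.finite_range fun q : Fin n × Fin n => x q.1 / x q.2).subset
        (by rintro z ⟨a, b, e⟩; exact ⟨(a, b), e.symm⟩)).to_subtype
    exact IntermediateField.finiteDimensional_adjoin fun z _ => Algebra.IsIntegral.isIntegral z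
  apply le_antisymm
  · refine AddSubgroup.closure_mono ?_
    rintro m ⟨x, h0, h1, rfl⟩
    obtain ⟨b, hb⟩ := Function.ne_iff.1 h0
    refine ⟨_, fin x, rfl, fun a => ⟨x a / x b, IntermediateField.subset_adjoin _ _ ⟨a, b, rfl⟩⟩,
      fun e => one_ne_zero ((div_self hb).symm.trans (congrArg Subtype.val (congrFun e b))), ?_⟩
    refine (algebraMap _ (AlgebraicClosure L)).injective ?_
    rw [map_zero, ← MvPolynomial.aeval_algebraMap_apply]
    have h2 := Pool.Agent.HZ.p2_hom hf (x b)⁻¹ x
    rw [h1, mul_zero] at h2
    rw [← h2]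
    exact congrArg (fun y => MvPolynomial.aeval y f) (funext fun a => div_eq_inv_mul _ _)
  · refine (AddSubgroup.closure_le _).2 ?_
    rintro m ⟨E, h1, rfl, x, h0, h2⟩
    have h3 : IntermediateField.adjoin L {z | ∃ a b, z = (x a : AlgebraicClosure L) / x b} ≤ E := by
      rw [IntermediateField.adjoin_le_iff]
      rintro z ⟨a, b, rfl⟩
      exact div_mem (x a).2 (x b).2
    obtain ⟨c, hc⟩ := IntermediateField.finrank_dvd_of_le_right h3
    rw [hc, Nat.cast_mul, mul_comm, ← nsmul_eq_mul]
    refine nsmul_mem (AddSubgroup.subset_closure ?_) c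
    refine ⟨fun a => x a, fun e => h0 (funext fun a => Subtype.ext (congrFun e a)), ?_, rfl⟩
    have h4 := MvPolynomial.aeval_algebraMap_apply (AlgebraicClosure L) x f
    rw [h2, map_zero] at h4
    exact h4

theorem result (F K : Type) [Field F] [Finite F] [Field K] [Algebra (RatFunc F) K]
    [FunctionField F K] (n d : ℕ) (hd : 2 ≤ d) (hp : d < ringChar F) (hn : 4 * d ≤ n + 1)
    (f : MvPolynomial (Fin n) K) (hf : f.IsHomogeneous d)
    (hs : ∀ x : Fin n → AlgebraicClosure K, MvPolynomial.aeval x f = 0 →
      (∀ i, MvPolynomial.aeval x (MvPolynomial.pderiv i f) = 0) → x = 0) (δ : ℤ)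
    (h : ∀ v : Valuation K (WithZero (Multiplicative ℤ)), Function.Surjective v →
      δ ∈ cycleDegrees (MvPolynomial.map (toCompletion v) f)) :
    δ ∈ cycleDegrees f := by
  let _ : Algebra F K := ((algebraMap (RatFunc F) K).comp (algebraMap F (RatFunc F))).toAlgebra
  have : IsScalarTower F (RatFunc F) K := IsScalarTower.of_algebraMap_eq fun _ => rfl
  rw [cycleDegrees_eq hf]
  refine Pool.Agent.HZ.degs_main F K (Pool.Agent.HZ.ff_of_functionField F K) hd hp hn hf hs
    fun v hv => ?_
  rw [← cycleDegrees_eq (hf.map _)]
  exact h v hv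

end Pool.Agent.Results.MP_751085_ag.HypersurfaceZeroCycles
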