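import Pool.Agent.Lib.MP_751085_ag.ZF.NF.All
import Pool.Agent.Lib.MP_751085_ag.ZF.NF.Glob

namespace Pool.Agent.Results.MP_751085_ag.ThreefoldsSuffice

open Pool.Agent.ZCy

theorem result (k : Type) [Field k] (hk : IsGlobal k) (j : Invs k)
    (h : ∀ X : Var k, X.Nice 3 → X.ZCs j) (n : ℕ) (hn : 4 ≤ n) (X : Var k) (hX : X.Nice n) :
    X.ZCs j :=
  F.glob_of F.ev_thm (F.ffMain_of F.all_hyp) k hk j h n hn X hX

end Pool.Agent.Results.MP_751085_ag.ThreefoldsSuffice
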